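import Pool.Agent.KS6_60.BG.Branch

/-! Portraits over `ZMod 4` acting on the binary tree: a letter of `ZMod 4` is a pair of binary digits. -/

set_option linter.unusedSectionVars false

namespace Pool.Agent.KS6_60.BG.Binary

open Port Port.W

/-- the letter with given binary digits -/
def enc (x y : ZMod 2) : ZMod 4 := (x.val : ZMod 4) + 2 * (y.val : ZMod 4)

/-- the lower digit -/
def lo (s : ZMod 4) : ZMod 2 := (s.val : ZMod 2)

/-- the upper digit -/
def hi (s : ZMod 4) : ZMod 2 := ((s.val / 2 : ℕ) : ZMod 2)

lemma lo_enc : ∀ x y : ZMod 2, lo (enc x y) = x := by decide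

lemma hi_enc : ∀ x y : ZMod 2, hi (enc x y) = y := by decide

lemma enc_lo_hi : ∀ s : ZMod 4, enc (lo s) (hi s) = s := by decide

lemma lo_add : ∀ s t : ZMod 4, lo (s + t) = lo s + lo t := by decide

/-- binary expansion of words -/
def dec : List (ZMod 4) → List (ZMod 2)
  | [] => []
  | s :: w => lo s :: hi s :: dec w

/-- encoding of binary words, padded by a zero -/
def en : List (ZMod 2) → List (ZMod 4)
  | [] => []
  | [x] => [enc x 0]
  | x :: y :: w => enc x y :: en w

lemma dec_length (w : List (ZMod 4)) : (dec w).length = 2 * w.length := by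
  induction w with
  | nil => rfl
  | cons s w ih => simp only [dec, List.length_cons, ih]; ring

lemma en_length : ∀ w : List (ZMod 2), (en w).length = (w.length + 1) / 2
  | [] => rfl
  | [x] => by simp [en]
  | x :: y :: w => by
    simp only [en, List.length_cons, en_length w]
    omega

lemma take_dec_en : ∀ w : List (ZMod 2), (dec (en w)).take w.length = w
  | [] => rfl
  | [x] => by simp [en, dec, lo_enc]
  | x :: y :: w => by
    simp only [en, dec, List.length_cons, List.take_succ_cons, take_dec_en w, lo_enc, hi_enc]

lemma en_dec (w : List (ZMod 4)) : en (dec w) = w := by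
  induction w with
  | nil => rfl
  | cons s w ih => simp only [dec, en, ih, enc_lo_hi]

lemma dec_injective : Function.Injective dec := fun a b h => by
  rw [← en_dec a, h, en_dec]

lemma dec_prefix {u z : List (ZMod 4)} (h : u <+: z) : dec u <+: dec z := by
  induction u generalizing z with
  | nil => exact List.nil_prefix
  | cons s u ih =>
    cases z with
    | nil => simp at h
    | cons t z =>
      rw [List.cons_prefix_cons] at h
      obtain ⟨rfl, h2⟩ := h
      simp only [dec, List.cons_prefix_cons, true_and]
      exact ih h2

/-- prefixes of the binary expansion are mapped to prefixes -/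
lemma key (k : ℕ) : ∀ (g : W (ZMod 4)) (z z' : List (ZMod 4)), k ≤ 2 * z.length → k ≤ 2 * z'.length →
    (dec z).take k = (dec z').take k → (dec (g.act z)).take k = (dec (g.act z')).take k := by
  induction k using Nat.strong_induction_on with
  | _ k ih =>
    intro g z z' h1 h2 h
    match k, z, z' with
    | 0, _, _ => simp
    | k + 1, [], _ => simp at h1
    | k + 1, _ :: _, [] => simp at h2
    | 1, s :: z, s' :: z' =>
      simp only [dec, act, List.take_succ_cons, List.take_zero, List.cons.injEq, and_true] at h ⊢
      rw [lo_add, lo_add, h]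
    | k + 2, s :: z, s' :: z' =>
      simp only [dec, act, List.take_succ_cons, List.cons.injEq] at h ⊢
      obtain ⟨h3, h4, h5⟩ := h
      have h6 : s = s' := by rw [← enc_lo_hi s, h3, h4, enc_lo_hi]
      subst h6
      refine ⟨rfl, rfl, ?_⟩
      apply ih k (by omega) _ _ _ _ _ h5
      · simp only [List.length_cons] at h1; omega
      · simp only [List.length_cons] at h2; omega

/-- action on binary words -/
def act2 (g : W (ZMod 4)) (w : List (ZMod 2)) : List (ZMod 2) := (dec (g.act (en w))).take w.length

lemma act2_length (g : W (ZMod 4)) (w : List (ZMod 2)) : (act2 g w).length = w.length := by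
  unfold act2
  rw [List.length_take, dec_length, act_length, en_length]
  omega

lemma le_en (w : List (ZMod 2)) : w.length ≤ 2 * (en w).length := by
  rw [en_length]; omega

lemma act2_eq (g : W (ZMod 4)) (w : List (ZMod 2)) (z : List (ZMod 4))
    (hz : w.length ≤ 2 * z.length) (h : (dec z).take w.length = w) :
    act2 g w = (dec (g.act z)).take w.length := by
  unfold act2
  apply key _ _ _ _ (le_en w) hz
  rw [take_dec_en, h]

lemma act2_mul (g h : W (ZMod 4)) (w : List (ZMod 2)) : act2 (g * h) w = act2 g (act2 h w) := by
  rw [act2_eq g (act2 h w) (h.act (en w))]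
  · rw [act2_length, ← act_mul]
    rfl
  · rw [act2_length, act_length]
    exact le_en w
  · rw [act2_length]
    rfl

lemma act2_one (w : List (ZMod 2)) : act2 1 w = w := by
  unfold act2
  rw [act_one, take_dec_en]

lemma act2_dec (g : W (ZMod 4)) (z : List (ZMod 4)) : act2 g (dec z) = dec (g.act z) := by
  unfold act2
  rw [en_dec, dec_length, List.take_of_length_le]
  rw [dec_length, act_length]

lemma act2_inv_act2 (g : W (ZMod 4)) (w : List (ZMod 2)) : act2 g⁻¹ (act2 g w) = w := by
  rw [← act2_mul, inv_mul_cancel, act2_one]

lemma act2_act2_inv (g : W (ZMod 4)) (w : List (ZMod 2)) : act2 g (act2 g⁻¹ w) = w := by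
  rw [← act2_mul, mul_inv_cancel, act2_one]

/-- the permutation of the binary words -/
def toPerm2 : W (ZMod 4) →* Equiv.Perm (List (ZMod 2)) where
  toFun g :=
    { toFun := act2 g
      invFun := act2 g⁻¹
      left_inv := act2_inv_act2 g
      right_inv := act2_act2_inv g }
  map_one' := Equiv.ext act2_one
  map_mul' g h := Equiv.ext (act2_mul g h)

lemma toPerm2_apply (g : W (ZMod 4)) (w : List (ZMod 2)) : toPerm2 g w = act2 g w := rfl

lemma toPerm2_injective : Function.Injective toPerm2 := by
  intro g h hgh
  apply act_injective
  funext z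
  apply dec_injective
  rw [← act2_dec, ← act2_dec]
  exact congrArg (fun e : Equiv.Perm (List (ZMod 2)) => e (dec z)) hgh

lemma act2_prefix (g : W (ZMod 4)) {v w : List (ZMod 2)} (h : v <+: w) : act2 g v <+: act2 g w := by
  have hl := h.length_le
  have hv : v = w.take v.length := List.prefix_iff_eq_take.mp h
  rw [act2_eq g v (en w) (hl.trans (le_en w))]
  · unfold act2
    have : (dec (g.act (en w))).take v.length =
        ((dec (g.act (en w))).take w.length).take v.length := by
      rw [List.take_take, min_eq_left hl]
    rw [this]
    exact List.take_prefix _ _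
  · have h1 : (dec (en w)).take v.length = ((dec (en w)).take w.length).take v.length := by
      rw [List.take_take, min_eq_left hl]
    rw [h1, take_dec_en]
    exact hv.symm

/-- transitivity on the levels -/
lemma transitive2 {K : Subgroup (W (ZMod 4))} (hK : Nice K) (v w : List (ZMod 2))
    (h : v.length = w.length) : ∃ k ∈ K, act2 k v = w := by
  obtain ⟨k, hk, hkv⟩ := hK.transitive (en v) (en w) (by rw [en_length, en_length, h])
  refine ⟨k, hk, ?_⟩
  unfold act2
  rw [hkv, h, take_dec_en]

/-- rigid elements -/
lemma rigid2 {g : W (ZMod 4)} {u : List (ZMod 4)}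
    (hg : ∀ z, ¬ u <+: z → g.act z = z) (w : List (ZMod 2))
    (hw : ¬ (dec u).take u.length <+: w) : act2 g w = w := by
  by_cases h : u <+: en w
  · exfalso
    have h1 : (dec u).take u.length <+: dec (en w) := (List.take_prefix _ _).trans (dec_prefix h)
    have h2 : w <+: dec (en w) := by
      conv_lhs => rw [← take_dec_en w]
      exact List.take_prefix _ _
    have h3 := h.length_le
    rw [en_length] at h3
    have h4 : ((dec u).take u.length).length = u.length := by
      rw [List.length_take, dec_length]; omega
    rcases Nat.lt_or_ge w.length u.length with h5 | h5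
    · omega
    · exact hw (List.prefix_of_prefix_length_le h1 h2 (by rw [h4]; exact h5))
  · unfold act2
    rw [hg _ h, take_dec_en]

end Pool.Agent.KS6_60.BG.Binary
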