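import Pool.Agent.KS6_60.BG.Branch

/-! The groups `⟨a, b ^ i * c ^ j : (i, j) ∈ J⟩`, `b = (a, 1, ..., 1, c)`, `c = (1, 1, ..., 1, b)`, on the
`n`-regular rooted tree, `n ≥ 3`. -/

set_option linter.unusedSectionVars false

namespace Pool.Agent.KS6_60.BG.FG

open Port Port.W
open scoped commutatorElement

variable {n : ℕ} [NeZero n]

/-- portraits on the `n`-regular tree -/
abbrev WW (n : ℕ) := W (ZMod n)

/-- labels of `b ^ i * c ^ j` -/
def beL : ZMod n → ZMod n → List (ZMod n) → ZMod n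
  | _, _, [] => 0
  | i, j, x :: w => if x = 0 then (al i).l w else if x = -1 then beL j i w else 0

/-- the element `b ^ i * c ^ j` -/
def be (i j : ZMod n) : WW n := ⟨beL i j⟩

lemma be_root (i j : ZMod n) : (be i j).l [] = 0 := rfl

lemma be_sec0 (i j : ZMod n) : (be i j).sec 0 = al i := by
  ext w
  show beL i j (0 :: w) = _
  simp [beL]

lemma one_ne [Fact (3 ≤ n)] : (1 : ZMod n) ≠ 0 := by
  have h3 : 3 ≤ n := Fact.out
  intro h
  have h1 : ((1 : ℕ) : ZMod n) = 0 := by simpa using h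
  rw [ZMod.natCast_eq_zero_iff] at h1
  have := Nat.le_of_dvd (by norm_num) h1
  omega

lemma two_ne [Fact (3 ≤ n)] : (2 : ZMod n) ≠ 0 := by
  have h3 : 3 ≤ n := Fact.out
  intro h
  have h1 : ((2 : ℕ) : ZMod n) = 0 := by simpa using h
  rw [ZMod.natCast_eq_zero_iff] at h1
  have := Nat.le_of_dvd (by norm_num) h1
  omega

lemma neg_one_ne [Fact (3 ≤ n)] : (-1 : ZMod n) ≠ 0 := neg_ne_zero.mpr one_ne

lemma one_ne_neg_one [Fact (3 ≤ n)] : (1 : ZMod n) ≠ -1 := by
  intro h
  apply two_ne (n := n)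
  linear_combination h

variable [Fact (3 ≤ n)]

lemma be_secm (i j : ZMod n) : (be i j).sec (-1) = be j i := by
  ext w
  show beL i j (-1 :: w) = _
  simp only [beL, if_neg (neg_one_ne (n := n)), if_true]
  rfl

lemma be_sec_other (i j : ZMod n) {x : ZMod n} (h0 : x ≠ 0) (h1 : x ≠ -1) :
    (be i j).sec x = 1 := by
  ext w
  show beL i j (x :: w) = _
  simp only [beL, if_neg h0, if_neg h1]
  rfl

lemma three_cases (x : ZMod n) : x = 0 ∨ x = -1 ∨ (x ≠ 0 ∧ x ≠ -1) := by
  tauto

lemma be_mul (i j i' j' : ZMod n) : be i j * be i' j' = be (i + i') (j + j') := by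
  ext w
  induction w generalizing i j i' j' with
  | nil =>
    rw [mul_l]
    show (0 : ZMod n) + 0 = 0
    rw [add_zero]
  | cons x w ih =>
    have h1 : (be i j * be i' j').l (x :: w) = ((be i j).sec x * (be i' j').sec x).l w := by
      rw [← sec_mul_of (be_root i' j')]
      rfl
    have h2 : (be (i + i') (j + j')).l (x :: w) = ((be (i + i') (j + j')).sec x).l w := rfl
    rw [h1, h2]
    rcases three_cases x with rfl | rfl | ⟨hx, hx'⟩
    · rw [be_sec0, be_sec0, be_sec0, al_mul]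
    · rw [be_secm, be_secm, be_secm, ih]
    · rw [be_sec_other _ _ hx hx', be_sec_other _ _ hx hx', be_sec_other _ _ hx hx', mul_one]

lemma be_zero : be (0 : ZMod n) 0 = 1 := by
  have := be_mul (0 : ZMod n) 0 0 0
  rw [add_zero] at this
  exact mul_eq_left.mp this

lemma be_inv (i j : ZMod n) : (be i j)⁻¹ = be (-i) (-j) := by
  rw [inv_eq_iff_mul_eq_one, be_mul, add_neg_cancel, add_neg_cancel, be_zero]

lemma be_comm (i j i' j' : ZMod n) : be i j * be i' j' = be i' j' * be i j := by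
  rw [be_mul, be_mul, add_comm i, add_comm j]

/-- the group generated by `a` and the `b ^ i * c ^ j` with `(i, j) ∈ J` -/
def K (J : AddSubgroup (ZMod n × ZMod n)) : Subgroup (WW n) :=
  Subgroup.closure ({al 1} ∪ {g | ∃ p ∈ J, g = be p.1 p.2})

section

variable {J : AddSubgroup (ZMod n × ZMod n)}

lemma al_nat_mem (k : ℕ) : al (k : ZMod n) ∈ K J := by
  have h1 : al 1 ∈ K J := Subgroup.subset_closure (Or.inl rfl)
  induction k with
  | zero => rw [Nat.cast_zero, al_zero]; exact Subgroup.one_mem _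
  | succ k ih =>
    rw [Nat.cast_succ, ← al_mul]
    exact Subgroup.mul_mem _ ih h1

lemma al_mem (s : ZMod n) : al s ∈ K J := by
  have := al_nat_mem (J := J) s.val
  rwa [ZMod.natCast_zmod_val] at this

lemma be_mem {p : ZMod n × ZMod n} (hp : p ∈ J) : be p.1 p.2 ∈ K J :=
  Subgroup.subset_closure (Or.inr ⟨p, hp, rfl⟩)

/-- conjugate of `be` by a rooted element -/
def cb (t : ZMod n) (p : ZMod n × ZMod n) : WW n := al t * be p.1 p.2 * al (-t)

lemma cb_mem (t : ZMod n) {p : ZMod n × ZMod n} (hp : p ∈ J) : cb t p ∈ K J :=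
  Subgroup.mul_mem _ (Subgroup.mul_mem _ (al_mem _) (be_mem hp)) (al_mem _)

lemma cb_root (t : ZMod n) (p : ZMod n × ZMod n) : (cb t p).l [] = 0 := by
  show t + 0 + -t = 0
  ring

lemma cb_sec (t : ZMod n) (p : ZMod n × ZMod n) (x : ZMod n) :
    (cb t p).sec x = (be p.1 p.2).sec (x - t) := by
  unfold cb
  rw [sec_mul, sec_mul, al_sec, al_sec, one_mul, mul_one, al_root, sub_eq_add_neg]

variable (hJ : ∀ p ∈ J, (p.2, p.1) ∈ J) {j₀ : ZMod n} (h10 : ((1, j₀) : ZMod n × ZMod n) ∈ J)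

include hJ in
lemma sec_mem {g : WW n} (hg : g ∈ K J) (x : ZMod n) : g.sec x ∈ K J := by
  induction hg using Subgroup.closure_induction generalizing x with
  | mem g hg =>
    rcases hg with rfl | ⟨p, hp, rfl⟩
    · rw [al_sec]; exact Subgroup.one_mem _
    · rcases three_cases x with rfl | rfl | ⟨hx, hx'⟩
      · rw [be_sec0]; exact al_mem _
      · rw [be_secm]; exact be_mem (hJ p hp)
      · rw [be_sec_other _ _ hx hx']; exact Subgroup.one_mem _
  | one => exact Subgroup.one_mem _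
  | mul g h _ _ hg hh =>
    rw [sec_mul]
    exact Subgroup.mul_mem _ (hg _) (hh _)
  | inv g _ hg =>
    rw [sec_inv]
    exact Subgroup.inv_mem _ (hg _)

include hJ h10 in
lemma lift {h : WW n} (hh : h ∈ K J) (x : ZMod n) : ∃ k ∈ K J, k.l [] = 0 ∧ k.sec x = h := by
  induction hh using Subgroup.closure_induction with
  | mem g hg =>
    rcases hg with rfl | ⟨p, hp, rfl⟩
    · refine ⟨cb x (1, j₀), cb_mem x h10, cb_root _ _, ?_⟩
      rw [cb_sec, sub_self, be_sec0]
    · refine ⟨cb (x + 1) (p.2, p.1), cb_mem _ (hJ p hp), cb_root _ _, ?_⟩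
      rw [cb_sec, show x - (x + 1) = -1 by ring, be_secm]
  | one => exact ⟨1, Subgroup.one_mem _, rfl, rfl⟩
  | mul g h _ _ hg hh =>
    obtain ⟨k, hk, hk0, hk1⟩ := hg
    obtain ⟨k', hk', hk0', hk1'⟩ := hh
    refine ⟨k * k', Subgroup.mul_mem _ hk hk', ?_, ?_⟩
    · rw [mul_root, hk0, hk0', add_zero]
    · rw [sec_mul_of hk0', hk1, hk1']
  | inv g _ hg =>
    obtain ⟨k, hk, hk0, hk1⟩ := hg
    refine ⟨k⁻¹, Subgroup.inv_mem _ hk, ?_, ?_⟩
    · rw [inv_root, hk0, neg_zero]
    · rw [sec_inv_of hk0, hk1]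

end

/-- if the commutators of the generators lie in a subgroup normalized by the group, so does the
commutator subgroup -/
lemma comm_le {G : Type*} [Group G] (S : Set G) (N : Subgroup G)
    (hN : ∀ g ∈ Subgroup.closure S, ∀ n ∈ N, g * n * g⁻¹ ∈ N)
    (h : ∀ s ∈ S, ∀ t ∈ S, ⁅s, t⁆ ∈ N) : ⁅Subgroup.closure S, Subgroup.closure S⁆ ≤ N := by
  have h1 : ∀ s ∈ S, ∀ g ∈ Subgroup.closure S, ⁅g, s⁆ ∈ N := by
    intro s hs g hg
    induction hg using Subgroup.closure_induction with
    | mem g hg => exact h g hg s hs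
    | one => rw [commutatorElement_one_left]; exact N.one_mem
    | mul g k hg hk ihg ihk =>
      have : ⁅g * k, s⁆ = (g * ⁅k, s⁆ * g⁻¹) * ⁅g, s⁆ := by
        simp only [commutatorElement_def]; group
      rw [this]
      exact N.mul_mem (hN g hg _ ihk) ihg
    | inv g hg ih =>
      have : ⁅g⁻¹, s⁆ = g⁻¹ * (⁅g, s⁆)⁻¹ * g⁻¹⁻¹ := by
        simp only [commutatorElement_def]; group
      rw [this]
      exact hN _ (Subgroup.inv_mem _ hg) _ (N.inv_mem ih)
  rw [Subgroup.commutator_le]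
  intro g hg k hk
  induction hk using Subgroup.closure_induction with
  | mem k hk => exact h1 k hk g hg
  | one => rw [commutatorElement_one_right]; exact N.one_mem
  | mul k l hk hl ihk ihl =>
    have : ⁅g, k * l⁆ = ⁅g, k⁆ * (k * ⁅g, l⁆ * k⁻¹) := by
      simp only [commutatorElement_def]; group
    rw [this]
    exact N.mul_mem ihk (hN k hk _ ihl)
  | inv k hk ih =>
    have : ⁅g, k⁻¹⁆ = k⁻¹ * (⁅g, k⁆)⁻¹ * k⁻¹⁻¹ := by
      simp only [commutatorElement_def]; group
    rw [this]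
    exact hN _ (Subgroup.inv_mem _ hk) _ (N.inv_mem ih)

lemma comm_inv_mem {G : Type*} [Group G] {N : Subgroup G} {a b : G} (h : ⁅a, b⁆ ∈ N) :
    ⁅b, a⁆ ∈ N := by
  rw [← commutatorElement_inv]
  exact N.inv_mem h

lemma comm_root (g h : WW n) : (⁅g, h⁆ : WW n).l [] = 0 := by
  simp only [commutatorElement_def, mul_root, inv_root]
  ring

/-- sections of commutators of elements of the first level stabilizer -/
lemma comm_sec {g h : WW n} (hg : g.l [] = 0) (hh : h.l [] = 0) (x : ZMod n) :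
    (⁅g, h⁆ : WW n).sec x = ⁅g.sec x, h.sec x⁆ := by
  have hg' : (g⁻¹).l [] = 0 := by rw [inv_root, hg, neg_zero]
  have hh' : (h⁻¹).l [] = 0 := by rw [inv_root, hh, neg_zero]
  simp only [commutatorElement_def]
  rw [sec_mul_of hh', sec_mul_of hg', sec_mul_of hh, sec_inv_of hg, sec_inv_of hh]

section

variable {J : AddSubgroup (ZMod n × ZMod n)}

variable (hJ : ∀ p ∈ J, (p.2, p.1) ∈ J) {j₀ : ZMod n} (h10 : ((1, j₀) : ZMod n × ZMod n) ∈ J)

/-- trivial section of `cb 1 p` at `-1` -/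
lemma cb_one_sec_neg (p : ZMod n × ZMod n) : (cb 1 p).sec (-1) = 1 := by
  rw [cb_sec]
  apply be_sec_other
  · intro h
    apply two_ne (n := n)
    linear_combination -h
  · intro h
    apply one_ne (n := n)
    linear_combination -h

lemma cb_one_sec_zero (p : ZMod n × ZMod n) : (cb 1 p).sec 0 = be p.2 p.1 := by
  rw [cb_sec, show (0 : ZMod n) - 1 = -1 by ring, be_secm]

lemma comm_be_cb (i j : ZMod n) (p : ZMod n × ZMod n) :
    ⁅be i j, cb 1 p⁆ = at1 0 ⁅(al i : WW n), be p.2 p.1⁆ := by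
  apply eq_at1
  · exact comm_root _ _
  · rw [comm_sec (be_root _ _) (cb_root _ _), be_sec0, cb_one_sec_zero]
  · intro y hy
    rw [comm_sec (be_root _ _) (cb_root _ _)]
    rcases three_cases y with rfl | rfl | ⟨hx, hx'⟩
    · exact absurd rfl hy
    · rw [cb_one_sec_neg, commutatorElement_one_right]
    · rw [be_sec_other _ _ hx hx', commutatorElement_one_left]

include hJ h10 in
lemma at1_zero_mem {d : WW n} (hd : d ∈ ⁅K J, K J⁆) : at1 0 d ∈ ⁅K J, K J⁆ := by
  have key : ⁅K J, K J⁆ ≤ (⁅K J, K J⁆).comap (at1 (0 : ZMod n)) := by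
    apply comm_le
    · intro g hg n hn
      obtain ⟨k, hk, hk0, hk1⟩ := lift hJ h10 hg 0
      rw [Subgroup.mem_comap] at hn ⊢
      have h1 := conj_at1 k n 0
      rw [hk0, hk1, add_zero] at h1
      rw [← h1]
      exact conj_mem_commutator hk hn
    · have h1 : ∀ p ∈ J, ⁅(al 1 : WW n), be p.1 p.2⁆ ∈ (⁅K J, K J⁆).comap (at1 (0 : ZMod n)) := by
        intro p hp
        rw [Subgroup.mem_comap]
        have h2 : at1 0 ⁅(al 1 : WW n), be p.1 p.2⁆ = ⁅be 1 j₀, cb 1 (p.2, p.1)⁆ :=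
          (comm_be_cb 1 j₀ (p.2, p.1)).symm
        rw [h2]
        exact Subgroup.commutator_mem_commutator (be_mem h10) (cb_mem 1 (hJ p hp))
      rintro s (rfl | ⟨p, hp, rfl⟩) t (rfl | ⟨q, hq, rfl⟩)
      · rw [commutatorElement_self]
        exact Subgroup.one_mem _
      · exact h1 q hq
      · exact comm_inv_mem (h1 p hp)
      · rw [commutatorElement_eq_one_iff_mul_comm.mpr (be_comm _ _ _ _)]
        exact Subgroup.one_mem _
  exact key hd

lemma at1_conj (x : ZMod n) (d : WW n) : at1 x d = al x * at1 0 d * (al x)⁻¹ := by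
  rw [conj_at1, al_root, al_sec, zero_add]
  simp

include hJ h10 in
lemma at1_mem {d : WW n} (hd : d ∈ ⁅K J, K J⁆) (x : ZMod n) : at1 x d ∈ ⁅K J, K J⁆ := by
  rw [at1_conj]
  exact conj_mem_commutator (al_mem x) (at1_zero_mem hJ h10 hd)

lemma fg : (K J).FG := by
  rw [Subgroup.fg_iff]
  refine ⟨_, rfl, ?_⟩
  refine (Set.finite_singleton _).union ?_
  refine (Set.finite_range (fun p : ZMod n × ZMod n => be p.1 p.2)).subset ?_
  rintro _ ⟨p, _, rfl⟩
  exact ⟨p, rfl⟩

lemma al_pow' (s : ZMod n) (k : ℕ) : (al s) ^ k = al ((k : ZMod n) * s) := by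
  induction k with
  | zero => rw [pow_zero, Nat.cast_zero, zero_mul, al_zero]
  | succ k ih =>
    rw [pow_succ, ih, al_mul, Nat.cast_succ]
    congr 1
    ring

lemma be_pow' (i j : ZMod n) (k : ℕ) : (be i j) ^ k = be ((k : ZMod n) * i) ((k : ZMod n) * j) := by
  induction k with
  | zero => rw [pow_zero, Nat.cast_zero, zero_mul, zero_mul, be_zero]
  | succ k ih =>
    rw [pow_succ, ih, be_mul, Nat.cast_succ]
    congr 1 <;> ring

lemma al_pow (s : ZMod n) : (al s) ^ n = 1 := by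
  rw [al_pow', ZMod.natCast_self, zero_mul, al_zero]

lemma be_pow (i j : ZMod n) : (be i j) ^ n = 1 := by
  rw [be_pow', ZMod.natCast_self, zero_mul, zero_mul, be_zero]

lemma ab : (⁅K J, K J⁆).relIndex (K J) ≠ 0 := by
  have h1 : Group.FG (K J) := (Group.fg_iff_subgroup_fg _).mpr fg
  have h2 : ∀ g (hg : g ∈ K J), IsOfFinOrder (Abelianization.of (⟨g, hg⟩ : K J)) := by
    intro g hg
    induction hg using Subgroup.closure_induction with
    | mem g hg =>
      rw [isOfFinOrder_iff_pow_eq_one]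
      refine ⟨n, Nat.pos_of_ne_zero (NeZero.ne n), ?_⟩
      rw [← map_pow]
      have : (⟨g, Subgroup.subset_closure hg⟩ : K J) ^ n = 1 := by
        apply Subtype.ext
        show g ^ n = 1
        rcases hg with rfl | ⟨p, _, rfl⟩
        · exact al_pow 1
        · exact be_pow _ _
      rw [this, map_one]
    | one => exact IsOfFinOrder.one
    | mul g h hg hh ihg ihh =>
      have : (⟨g * h, Subgroup.mul_mem _ hg hh⟩ : K J) = ⟨g, hg⟩ * ⟨h, hh⟩ := rfl
      rw [this, map_mul]
      exact ihg.mul ihh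
    | inv g hg ih =>
      have : (⟨g⁻¹, Subgroup.inv_mem _ hg⟩ : K J) = (⟨g, hg⟩)⁻¹ := rfl
      rw [this, map_inv]
      exact ih.inv
  have h3 : Finite (Abelianization (K J)) := by
    have : Group.FG (Abelianization (K J)) := QuotientGroup.fg _
    apply CommGroup.finite_of_fg_isMulTorsion
    intro x
    obtain ⟨⟨g, hg⟩, rfl⟩ := QuotientGroup.mk_surjective x
    exact h2 g hg
  have h4 : (⁅K J, K J⁆).subgroupOf (K J) = commutator (K J) := by
    rw [← Subgroup.map_subtype_commutator]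
    exact Subgroup.comap_map_eq_self_of_injective (Subgroup.subtype_injective _) _
  show ((⁅K J, K J⁆).subgroupOf (K J)).index ≠ 0
  rw [h4]
  have h6 : Finite (K J ⧸ commutator (K J)) := h3
  have h5 : (commutator (K J)).FiniteIndex := Subgroup.finiteIndex_of_finite_quotient
  exact h5.index_ne_zero

include hJ h10 in
lemma nice : Nice (K J) where
  al_mem := al_mem
  sec_mem := fun _ hg x => sec_mem hJ hg x
  lift := fun _ hh x => lift hJ h10 hh x
  at1_mem := fun _ hd x => at1_mem hJ h10 hd x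
  ab := ab

end

end Pool.Agent.KS6_60.BG.FG
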