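import Pool.Agent.KS6_60.BG.FG

/-! Every subgroup `M` with `H ≤ M ≤ G` lies in the kernel of the character or has finite index, and
`H` has infinite index in `G`. -/

set_option linter.unusedSectionVars false

namespace Pool.Agent.KS6_60.BG.FG

open Port Port.W
open scoped commutatorElement

variable {n : ℕ} [NeZero n] [Fact (3 ≤ n)] {q : ℕ} [Fact q.Prime] (hq : q ∣ n)

/-- reduction modulo `q` -/
abbrev red (hq : q ∣ n) : ZMod n →+* ZMod q := ZMod.castHom hq (ZMod q)

/-- exponents of the elements of `H` -/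
def JH : AddSubgroup (ZMod n × ZMod n) where
  carrier := {p | red hq (p.1 + p.2) = 0}
  add_mem' := by
    intro p r hp hr
    show red hq ((p.1 + r.1) + (p.2 + r.2)) = 0
    have : (p.1 + r.1) + (p.2 + r.2) = (p.1 + p.2) + (r.1 + r.2) := by ring
    rw [this, map_add, show red hq (p.1 + p.2) = 0 from hp, show red hq (r.1 + r.2) = 0 from hr,
      add_zero]
  zero_mem' := by
    show red hq (0 + 0) = 0
    rw [add_zero, map_zero]
  neg_mem' := by
    intro p hp
    show red hq (-p.1 + -p.2) = 0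
    have : -p.1 + -p.2 = -(p.1 + p.2) := by ring
    rw [this, map_neg, show red hq (p.1 + p.2) = 0 from hp, neg_zero]

lemma mem_JH {p : ZMod n × ZMod n} : p ∈ JH hq ↔ red hq (p.1 + p.2) = 0 := Iff.rfl

lemma one_mem_JH : ((1, -1) : ZMod n × ZMod n) ∈ JH hq := by
  rw [mem_JH]
  show red hq (1 + -1) = 0
  rw [add_neg_cancel, map_zero]

/-- the smaller group -/
def H : Subgroup (WW n) := K (JH hq)

/-- the larger group -/
def G : Subgroup (WW n) := K ⊤

lemma H_nice : Nice (H hq) := nice (fun p hp => by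
  rw [mem_JH] at hp ⊢
  rwa [add_comm]) (one_mem_JH hq)

lemma G_nice : Nice (G (n := n)) := nice (fun _ _ => trivial) (j₀ := 0) trivial

lemma H_le_G : H hq ≤ G := by
  apply Subgroup.closure_mono
  rintro g (rfl | ⟨p, _, rfl⟩)
  · exact Or.inl rfl
  · exact Or.inr ⟨p, trivial, rfl⟩

lemma be_mem_G (i j : ZMod n) : be i j ∈ G := be_mem (p := (i, j)) trivial

lemma be_mem_H {i j : ZMod n} (h : red hq (i + j) = 0) : be i j ∈ H hq :=
  be_mem (J := JH hq) (p := (i, j)) h

/-! ### the character -/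

/-- the character -/
def chi (g : WW n) : ZMod q := red hq (lev 1 g + lev 2 g)

lemma chi_mul (g h : WW n) : chi hq (g * h) = chi hq g + chi hq h := by
  unfold chi
  rw [lev_mul, lev_mul, ← map_add]
  congr 1
  ring

lemma chi_one : chi hq 1 = 0 := by
  unfold chi
  rw [lev_one, lev_one, add_zero, map_zero]

lemma chi_inv (g : WW n) : chi hq g⁻¹ = - chi hq g := by
  unfold chi
  rw [lev_inv, lev_inv, ← map_neg]
  congr 1
  ring

lemma lev_al (k : ℕ) (s : ZMod n) : lev (k + 1) (al s) = 0 := by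
  rw [lev_succ]
  simp [al_sec, lev_one]

lemma lev_be (k : ℕ) (i j : ZMod n) : lev (k + 1) (be i j) = lev k (al i) + lev k (be j i) := by
  rw [lev_succ, Fintype.sum_eq_add (0 : ZMod n) (-1) (neg_one_ne (n := n)).symm, be_sec0, be_secm]
  rintro x ⟨h0, h1⟩
  rw [be_sec_other _ _ h0 h1, lev_one]

lemma lev1_be (i j : ZMod n) : lev 1 (be i j) = i := by
  rw [lev_be, lev_zero, lev_zero, al_root, be_root, add_zero]

lemma lev2_be (i j : ZMod n) : lev 2 (be i j) = j := by
  rw [lev_be, lev_al, lev1_be, zero_add]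

lemma lev3_be (i j : ZMod n) : lev 3 (be i j) = i := by
  rw [lev_be, lev_al, lev2_be, zero_add]

lemma chi_al (s : ZMod n) : chi hq (al s) = 0 := by
  unfold chi
  rw [lev_al, lev_al, add_zero, map_zero]

lemma chi_be (i j : ZMod n) : chi hq (be i j) = red hq (i + j) := by
  unfold chi
  rw [lev1_be, lev2_be]

lemma chi_cb (t : ZMod n) (p : ZMod n × ZMod n) : chi hq (cb t p) = red hq (p.1 + p.2) := by
  unfold cb
  rw [chi_mul, chi_mul, chi_al, chi_al, chi_be, add_zero, zero_add]

lemma chi_H {g : WW n} (hg : g ∈ H hq) : chi hq g = 0 := by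
  induction hg using Subgroup.closure_induction with
  | mem g hg =>
    rcases hg with rfl | ⟨p, hp, rfl⟩
    · exact chi_al hq 1
    · rw [chi_be]; exact hp
  | one => exact chi_one hq
  | mul g h _ _ hg hh => rw [chi_mul, hg, hh, add_zero]
  | inv g _ hg => rw [chi_inv, hg, neg_zero]

lemma lev_G {g : WW n} (hg : g ∈ G) : lev 3 g = lev 1 g := by
  induction hg using Subgroup.closure_induction with
  | mem g hg =>
    rcases hg with rfl | ⟨p, hp, rfl⟩
    · rw [lev_al, lev_al]
    · rw [lev3_be, lev1_be]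
  | one => rw [lev_one, lev_one]
  | mul g h _ _ hg hh => rw [lev_mul, lev_mul, hg, hh]
  | inv g _ hg => rw [lev_inv, lev_inv, hg]

lemma sum_chi {g : WW n} (hg : g ∈ G) : ∑ x, chi hq (g.sec x) = chi hq g := by
  unfold chi
  rw [← map_sum, Finset.sum_add_distrib]
  have h1 : ∑ x, lev 2 (g.sec x) = lev 3 g := rfl
  have h2 : ∑ x, lev 1 (g.sec x) = lev 2 g := rfl
  rw [h1, h2, lev_G hg, add_comm]

/-! ### infinite index -/

/-- an element of `G'` outside `H` -/
def d0 : WW n := ⁅(al 1 : WW n), be 0 1⁆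

lemma d0_mem : (d0 : WW n) ∈ ⁅(G : Subgroup (WW n)), (G : Subgroup (WW n))⁆ :=
  Subgroup.commutator_mem_commutator (al_mem 1) (be_mem_G 0 1)

lemma d0_not_mem : d0 ∉ H hq := by
  intro h
  have h1 := (H_nice hq).sec_mem _ h (-1)
  have h2 : (d0 : WW n).sec (-1) = be (-1) 0 := by
    have h3 : (d0 : WW n) = cb 1 (0, 1) * be 0 (-1) := by
      unfold d0 cb
      rw [commutatorElement_def, al_inv, be_inv, neg_zero]
    rw [h3, sec_mul_of (be_root _ _), cb_one_sec_neg, be_secm, one_mul]
  rw [h2] at h1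
  have h3 := chi_H hq h1
  rw [chi_be, add_zero, map_neg, map_one, neg_eq_zero] at h3
  exact one_ne_zero h3

/-- pairwise incomparable vertices -/
def vv (k : ℕ) : List (ZMod n) := List.replicate k (-1) ++ [0]

lemma vv_not {m k : ℕ} (h : m < k) :
    ¬ vv (n := n) m <+: vv k ∧ ¬ vv (n := n) k <+: vv m := by
  have hne := neg_one_ne (n := n)
  induction m generalizing k with
  | zero =>
    obtain ⟨k, rfl⟩ : ∃ j, k = j + 1 := ⟨k - 1, by omega⟩
    unfold vv
    rw [List.replicate_succ]
    constructor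
    · intro h
      rw [List.replicate_zero, List.nil_append, List.cons_append, List.cons_prefix_cons] at h
      exact hne h.1.symm
    · intro h
      rw [List.replicate_zero, List.nil_append, List.cons_append, List.cons_prefix_cons] at h
      exact hne h.1
  | succ m ih =>
    obtain ⟨k, rfl⟩ : ∃ j, k = j + 1 := ⟨k - 1, by omega⟩
    obtain ⟨h1, h2⟩ := ih (k := k) (by omega)
    have h3 : ∀ j, vv (n := n) (j + 1) = -1 :: vv j := fun j => by
      unfold vv
      rw [List.replicate_succ, List.cons_append]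
    rw [h3, h3]
    constructor
    · intro h
      rw [List.cons_prefix_cons] at h
      exact h1 h.2
    · intro h
      rw [List.cons_prefix_cons] at h
      exact h2 h.2

lemma infinite_index : (H hq).relIndex G = 0 := by
  by_contra hne
  have hfin : ((H hq).subgroupOf G).FiniteIndex := ⟨hne⟩
  let g : ℕ → G (n := n) :=
    fun k => ⟨put (vv k) d0, commutator_le_self _ (G_nice.put_mem d0_mem _)⟩
  obtain ⟨m, k, hmn, heq⟩ := Finite.exists_ne_map_eq_of_infinite
    (fun k => (QuotientGroup.mk (g k) : G (n := n) ⧸ (H hq).subgroupOf G))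
  wlog hlt : m < k generalizing m k
  · exact this k m hmn.symm heq.symm (by omega)
  have h1 : (g m)⁻¹ * g k ∈ (H hq).subgroupOf G := QuotientGroup.eq.mp heq
  rw [Subgroup.mem_subgroupOf] at h1
  have h2 : (put (vv m) d0)⁻¹ * put (vv k) d0 ∈ H hq := h1
  have h3 := (H_nice hq).secv_mem h2 (vv m)
  obtain ⟨h4, h5⟩ := vv_not (n := n) hlt
  rw [secv_mul, put_act_of_not _ h5, put_secv_of_not _ h5 h4, mul_one, ← map_inv,
    put_secv_self] at h3
  exact d0_not_mem hq (by simpa using (H hq).inv_mem h3)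

/-! ### length -/

/-- product of conjugates -/
def prodC (L : List (ZMod n × ZMod n × ZMod n)) : WW n := (L.map (fun q => cb q.1 q.2)).prod

lemma prodC_nil : prodC (n := n) [] = 1 := rfl

lemma prodC_cons (q : ZMod n × ZMod n × ZMod n) (L : List (ZMod n × ZMod n × ZMod n)) :
    prodC (q :: L) = cb q.1 q.2 * prodC L := by
  unfold prodC
  rw [List.map_cons, List.prod_cons]

lemma prodC_append (L L' : List (ZMod n × ZMod n × ZMod n)) :
    prodC (L ++ L') = prodC L * prodC L' := by
  unfold prodC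
  rw [List.map_append, List.prod_append]

lemma prodC_root (L : List (ZMod n × ZMod n × ZMod n)) : (prodC L).l [] = 0 := by
  induction L with
  | nil => rfl
  | cons q L ih => rw [prodC_cons, mul_root, cb_root, ih, add_zero]

lemma cb_zero (p : ZMod n × ZMod n) : cb 0 p = be p.1 p.2 := by
  unfold cb
  rw [neg_zero, al_zero, one_mul, mul_one]

lemma al_cb (s t : ZMod n) (p : ZMod n × ZMod n) : al s * cb t p = cb (s + t) p * al s := by
  unfold cb
  rw [← al_mul s t, show -(s + t) = -t + -s by ring, ← al_mul (-t) (-s)]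
  simp only [mul_assoc]
  rw [al_mul (-s) s, neg_add_cancel, al_zero, mul_one]

lemma al_prodC (s : ZMod n) (L : List (ZMod n × ZMod n × ZMod n)) :
    ∃ L', L'.length = L.length ∧ al s * prodC L = prodC L' * al s := by
  induction L with
  | nil => exact ⟨[], rfl, by rw [prodC_nil, one_mul, mul_one]⟩
  | cons q L ih =>
    obtain ⟨L', h1, h2⟩ := ih
    refine ⟨(s + q.1, q.2) :: L', by simp [h1], ?_⟩
    rw [prodC_cons, prodC_cons, ← mul_assoc, al_cb, mul_assoc, h2, mul_assoc]

/-- every element of `G` is a product of conjugates times a rooted element -/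
lemma exists_form {g : WW n} (hg : g ∈ G) : ∃ L s, g = prodC L * al s := by
  have key1 : ∀ (g : WW n) (r : ZMod n), (∃ L s, g = prodC L * al s) →
      ∃ L s, g * al r = prodC L * al s := by
    rintro g r ⟨L, s, rfl⟩
    exact ⟨L, s + r, by rw [mul_assoc, al_mul]⟩
  have key2 : ∀ (g : WW n) (i j : ZMod n), (∃ L s, g = prodC L * al s) →
      ∃ L s, g * be i j = prodC L * al s := by
    rintro g i j ⟨L, s, rfl⟩
    refine ⟨L ++ [(s, (i, j))], s, ?_⟩
    rw [prodC_append, prodC_cons, prodC_nil, mul_one, mul_assoc, mul_assoc]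
    congr 1
    have := al_cb s 0 (i, j)
    rw [cb_zero, add_zero] at this
    exact this
  unfold G at hg
  unfold K at hg
  induction hg using Subgroup.closure_induction_right with
  | one => exact ⟨[], 0, by rw [prodC_nil, al_zero, mul_one]⟩
  | mul_right g _ y hy ih =>
    rcases hy with rfl | ⟨p, _, rfl⟩
    · exact key1 _ _ ih
    · exact key2 _ _ _ ih
  | mul_inv_cancel g _ y hy ih =>
    rcases hy with rfl | ⟨p, _, rfl⟩
    · rw [al_inv]
      exact key1 _ _ ih
    · rw [be_inv]
      exact key2 _ _ _ ih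

lemma sec_prodC (L : List (ZMod n × ZMod n × ZMod n)) (x : ZMod n) :
    ∃ L' s, L'.length = L.countP (fun q => q.1 = x + 1) ∧ (prodC L).sec x = prodC L' * al s := by
  induction L with
  | nil => exact ⟨[], 0, rfl, by rw [prodC_nil, al_zero, mul_one, sec_one]⟩
  | cons q L ih =>
    obtain ⟨L', s, h1, h2⟩ := ih
    rw [prodC_cons, sec_mul_of (prodC_root L), cb_sec, h2]
    have h3 : q.1 = x + 1 ↔ x - q.1 = -1 := by
      constructor
      · intro h; rw [h]; ring
      · intro h; linear_combination -h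
    by_cases h4 : q.1 = x + 1
    · refine ⟨(0, (q.2.2, q.2.1)) :: L', s, ?_, ?_⟩
      · rw [List.countP_cons_of_pos (by simpa using h4), List.length_cons, h1]
      · rw [h3.mp h4, be_secm, prodC_cons, cb_zero, mul_assoc]
    · have h5 : ∃ r, (be q.2.1 q.2.2).sec (x - q.1) = al r := by
        rcases three_cases (x - q.1) with h | h | ⟨h, h'⟩
        · exact ⟨_, by rw [h, be_sec0]⟩
        · exact absurd (h3.mpr h) h4
        · exact ⟨0, by rw [be_sec_other _ _ h h', al_zero]⟩
      obtain ⟨r, hr⟩ := h5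
      obtain ⟨L'', h6, h7⟩ := al_prodC r L'
      refine ⟨L'', r + s, ?_, ?_⟩
      · rw [List.countP_cons_of_neg (by simpa using h4), h6, h1]
      · rw [hr, ← mul_assoc, h7, mul_assoc, al_mul]

lemma prodC_same (t : ZMod n) (L : List (ZMod n × ZMod n × ZMod n)) (h : ∀ q ∈ L, q.1 = t) :
    ∃ p, prodC L = cb t p := by
  induction L with
  | nil => exact ⟨0, by rw [prodC_nil, cb]; simp [be_zero, al_mul, al_zero]⟩
  | cons q L ih =>
    obtain ⟨p, hp⟩ := ih (fun q hq => h q (List.mem_cons_of_mem _ hq))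
    refine ⟨q.2 + p, ?_⟩
    rw [prodC_cons, hp, h q List.mem_cons_self]
    unfold cb
    rw [Prod.fst_add, Prod.snd_add, ← be_mul]
    have : al (-t) * al t = (1 : WW n) := by rw [al_mul, neg_add_cancel, al_zero]
    calc al t * be q.2.1 q.2.2 * al (-t) * (al t * be p.1 p.2 * al (-t))
        = al t * be q.2.1 q.2.2 * (al (-t) * al t) * be p.1 p.2 * al (-t) := by group
      _ = _ := by rw [this]; group

/-! ### sections of subgroups -/

/-- first level sections of a subgroup -/
def sub1 (M : Subgroup (WW n)) (x : ZMod n) : Subgroup (WW n) where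
  carrier := {g | ∃ m ∈ M, m.l [] = 0 ∧ m.sec x = g}
  mul_mem' := by
    rintro _ _ ⟨m, hm, h1, rfl⟩ ⟨m', hm', h1', rfl⟩
    exact ⟨m * m', M.mul_mem hm hm', by rw [mul_root, h1, h1', add_zero], sec_mul_of h1' x⟩
  one_mem' := ⟨1, M.one_mem, rfl, rfl⟩
  inv_mem' := by
    rintro _ ⟨m, hm, h1, rfl⟩
    exact ⟨m⁻¹, M.inv_mem hm, by rw [inv_root, h1, neg_zero], sec_inv_of h1 x⟩

lemma H_le_sub1 {M : Subgroup (WW n)} (hM : H hq ≤ M) (x : ZMod n) : H hq ≤ sub1 M x := by
  intro h hh
  obtain ⟨k, hk, h0, h1⟩ := (H_nice hq).lift h hh x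
  exact ⟨k, hM hk, h0, h1⟩

lemma sub1_le_G {M : Subgroup (WW n)} (hM : M ≤ G) (x : ZMod n) : sub1 M x ≤ G := by
  rintro _ ⟨m, hm, _, rfl⟩
  exact G_nice.sec_mem m (hM hm) x

/-- all of `G` occurs as sections of `M` at the vertex `v` -/
def Full (M : Subgroup (WW n)) (v : List (ZMod n)) : Prop :=
  ∀ g ∈ G, ∃ m ∈ M, m.act v = v ∧ m.secv v = g

lemma full_nil {M : Subgroup (WW n)} {i j : ZMod n} (hH : H hq ≤ M) (hj : red hq (i + j) ≠ 0)
    (h : be i j ∈ M) : Full M [] := by
  have h2 : ∀ a b : ZMod n, be a b ∈ M := by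
    intro a b
    -- a multiple of the given element has the same character
    obtain ⟨k, hk⟩ : ∃ k : ℕ, red hq (a + b) = (k : ZMod q) * red hq (i + j) := by
      refine ⟨(red hq (a + b) * (red hq (i + j))⁻¹).val, ?_⟩
      have : NeZero q := ⟨(Fact.out : q.Prime).ne_zero⟩
      rw [ZMod.natCast_zmod_val, mul_assoc, inv_mul_cancel₀ hj, mul_one]
    have h3 : be a b = be (a - (k : ZMod n) * i) (b - (k : ZMod n) * j) * be i j ^ k := by
      rw [be_pow', be_mul]
      congr 1 <;> ring
    rw [h3]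
    refine M.mul_mem (hH (be_mem_H hq ?_)) (M.pow_mem h k)
    have h4 : (a - (k : ZMod n) * i) + (b - (k : ZMod n) * j) = (a + b) - (k : ZMod n) * (i + j) := by
      ring
    rw [h4, map_sub, map_mul, map_natCast, hk, sub_self]
  have h3 : G ≤ M := by
    unfold G K
    rw [Subgroup.closure_le]
    rintro _ (rfl | ⟨p, _, rfl⟩)
    · exact hH (al_mem 1)
    · exact h2 _ _
  intro g hg
  exact ⟨g, h3 hg, rfl, rfl⟩

lemma full_cons {M : Subgroup (WW n)} {x : ZMod n} {v : List (ZMod n)} (h : Full (sub1 M x) v) :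
    Full M (x :: v) := by
  intro g hg
  obtain ⟨_, ⟨m, hm, h0, rfl⟩, h1, h2⟩ := h g hg
  refine ⟨m, hm, ?_, h2⟩
  rw [act, h0, h1, add_zero]

theorem claimA (k : ℕ) : ∀ (M : Subgroup (WW n)), H hq ≤ M → M ≤ G →
    ∀ (L : List (ZMod n × ZMod n × ZMod n)) (s : ZMod n), L.length = k → prodC L * al s ∈ M →
      chi hq (prodC L * al s) ≠ 0 → ∃ v, Full M v := by
  induction k using Nat.strong_induction_on with
  | _ k ih =>
    intro M hHM hMG L s hk hm hchi
    have hm' : prodC L ∈ M := by
      have := M.mul_mem hm (hHM (al_mem (-s) : al (-s) ∈ H hq))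
      rwa [mul_assoc, al_mul, add_neg_cancel, al_zero, mul_one] at this
    have hchi' : chi hq (prodC L) ≠ 0 := by
      rwa [chi_mul, chi_al, add_zero] at hchi
    have h1 : ∃ x, chi hq ((prodC L).sec x) ≠ 0 := by
      by_contra hcon
      push Not at hcon
      have h2 := sum_chi hq (hMG hm')
      rw [Finset.sum_eq_zero (fun x _ => hcon x)] at h2
      exact hchi' h2.symm
    obtain ⟨x, hx⟩ := h1
    obtain ⟨L', s', h2, h3⟩ := sec_prodC L x
    by_cases h4 : L.countP (fun q => q.1 = x + 1) < k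
    · obtain ⟨v, hv⟩ := ih _ h4 (sub1 M x) (H_le_sub1 hq hHM x) (sub1_le_G hMG x) L' s' h2
        ⟨prodC L, hm', prodC_root L, h3⟩ (by rw [← h3]; exact hx)
      exact ⟨x :: v, full_cons hv⟩
    · have h5 : L.countP (fun q => q.1 = x + 1) = L.length :=
        le_antisymm List.countP_le_length (by omega)
      rw [List.countP_eq_length] at h5
      obtain ⟨p, hp⟩ := prodC_same (x + 1) L (fun q hq => by simpa using h5 q hq)
      have h6 : be p.1 p.2 ∈ M := by
        have h7 : be p.1 p.2 = al (-(x + 1)) * cb (x + 1) p * al (x + 1) := by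
          unfold cb
          simp only [← mul_assoc]
          rw [al_mul, neg_add_cancel, al_zero, one_mul, mul_assoc, al_mul, neg_add_cancel, al_zero,
            mul_one]
        rw [h7, ← hp]
        exact M.mul_mem (M.mul_mem (hHM (al_mem _)) hm') (hHM (al_mem _))
      refine ⟨[], full_nil hq hHM ?_ h6⟩
      rw [hp, chi_cb] at hchi'
      exact hchi'

/-- If all of `G` occurs as sections of `M` at some vertex, then `M` has finite index in `G`. -/
theorem claimB {M : Subgroup (WW n)} (hHM : H hq ≤ M) {v : List (ZMod n)} (hv : Full M v) :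
    M.relIndex G ≠ 0 := by
  -- the elements whose copies at `v` lie in `M`
  let R : Subgroup (WW n) := M.comap (put v)
  have hR : ∀ g ∈ G, ∀ r ∈ R, g * r * g⁻¹ ∈ R := by
    intro g hg r hr
    obtain ⟨m, hm, h1, h2⟩ := hv g hg
    have h3 := conj_put m r v
    rw [h1, h2] at h3
    show put v (g * r * g⁻¹) ∈ M
    rw [← h3]
    exact M.mul_mem (M.mul_mem hm hr) (M.inv_mem hm)
  have hbm : be (1 : ZMod n) (-1) ∈ H hq := be_mem_H hq (by rw [add_neg_cancel, map_zero])
  have hd1 : ⁅(al 1 : WW n), (be 1 (-1) : WW n)⁆ ∈ R :=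
    hHM (commutator_le_self _ ((H_nice hq).put_mem
      (Subgroup.commutator_mem_commutator ((H_nice hq).al_mem 1) hbm) v))
  let L0 : Subgroup (WW n) := R.comap (at1 0)
  have hL0 : ∀ g ∈ G, ∀ r ∈ L0, g * r * g⁻¹ ∈ L0 := by
    intro g hg r hr
    obtain ⟨k, hk, hk0, hk1⟩ := G_nice.lift g hg 0
    have h1 := conj_at1 k r 0
    rw [hk0, hk1, add_zero] at h1
    show at1 0 (g * r * g⁻¹) ∈ R
    rw [← h1]
    exact hR k hk _ hr
  have h4 : ∀ i j : ZMod n, ⁅(al (-1) : WW n), be i j⁆ ∈ L0 := by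
    intro i j
    have h6 : ⁅(al 1 : WW n), (be 1 (-1) : WW n)⁆ = cb (1 : ZMod n) (1, -1) * be (-1) 1 := by
      unfold cb
      rw [commutatorElement_def, al_inv, be_inv, neg_neg]
    have h6r : (⁅(al 1 : WW n), (be 1 (-1) : WW n)⁆ : WW n).l [] = 0 := comm_root _ _
    have h5 : at1 (0 : ZMod n) ⁅be (-1 : ZMod n) 1 * al (-1), be i j⁆ =
        ⁅⁅(al 1 : WW n), (be 1 (-1) : WW n)⁆, (cb 1 (j, i) : WW n)⁆ := by
      symm
      apply eq_at1
      · exact comm_root _ _
      · rw [comm_sec h6r (cb_root _ _), h6, sec_mul_of (be_root _ _), cb_one_sec_zero,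
          cb_one_sec_zero, be_sec0]
      · intro y hy
        rw [comm_sec h6r (cb_root _ _)]
        by_cases hy1 : y = 1
        · rw [hy1, h6, sec_mul_of (be_root _ _), cb_sec, cb_sec, sub_self, be_sec0, be_sec0,
            be_sec_other _ _ one_ne one_ne_neg_one, mul_one,
            commutatorElement_eq_one_iff_mul_comm, al_mul, al_mul, add_comm]
        · have hy2 : (cb 1 (j, i)).sec y = 1 := by
            rw [cb_sec]
            apply be_sec_other
            · intro h; apply hy1; linear_combination h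
            · intro h; apply hy; linear_combination h
          rw [hy2, commutatorElement_one_right]
    have h7 : at1 (0 : ZMod n) ⁅be (-1 : ZMod n) 1 * al (-1), be i j⁆ ∈ R := by
      rw [h5]
      have h8 : cb 1 (j, i) ∈ G := cb_mem 1 trivial
      have h9 : ⁅⁅(al 1 : WW n), (be 1 (-1) : WW n)⁆, (cb 1 (j, i) : WW n)⁆ =
          ⁅(al 1 : WW n), (be 1 (-1) : WW n)⁆ *
            (cb 1 (j, i) * (⁅(al 1 : WW n), (be 1 (-1) : WW n)⁆)⁻¹ * (cb 1 (j, i))⁻¹ : WW n) := by
        rw [commutatorElement_def]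
        group
      rw [h9]
      exact R.mul_mem hd1 (hR _ h8 _ (R.inv_mem hd1))
    have h10 : ⁅be (-1 : ZMod n) 1 * al (-1), be i j⁆ ∈ L0 := h7
    have h11 : ⁅(al (-1) : WW n), be i j⁆ =
        (be (-1) 1)⁻¹ * ⁅be (-1 : ZMod n) 1 * al (-1), be i j⁆ * ((be (-1) 1)⁻¹)⁻¹ := by
      have h13 : (be i j)⁻¹ * be (-1) 1 = be (-1) 1 * (be i j)⁻¹ := by
        rw [be_inv, be_comm]
      calc ⁅(al (-1) : WW n), be i j⁆ = al (-1) * be i j * (al (-1))⁻¹ * (be i j)⁻¹ := rfl
        _ = al (-1) * be i j * (al (-1))⁻¹ * (be (-1) 1)⁻¹ * (be (-1) 1 * (be i j)⁻¹) := by group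
        _ = al (-1) * be i j * (al (-1))⁻¹ * (be (-1) 1)⁻¹ * ((be i j)⁻¹ * be (-1) 1) := by rw [h13]
        _ = _ := by rw [commutatorElement_def]; group
    rw [h11]
    exact hL0 _ (G.inv_mem (be_mem_G _ _)) _ h10
  have h5 : ∀ i j : ZMod n, ⁅(al 1 : WW n), be i j⁆ ∈ L0 := by
    intro i j
    have h6 : ⁅(al 1 : WW n), be i j⁆ = al 1 * (⁅(al (-1) : WW n), be i j⁆)⁻¹ * (al 1)⁻¹ := by
      rw [← al_inv]
      simp only [commutatorElement_def]
      group
    rw [h6]
    exact hL0 _ (al_mem 1) _ (L0.inv_mem (h4 i j))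
  have h6 : ⁅(G : Subgroup (WW n)), (G : Subgroup (WW n))⁆ ≤ L0 := by
    apply comm_le
    · exact hL0
    · rintro s (rfl | ⟨p, hp, rfl⟩) t (rfl | ⟨q, hq, rfl⟩)
      · rw [commutatorElement_self]
        exact Subgroup.one_mem _
      · exact h5 _ _
      · exact comm_inv_mem (h5 _ _)
      · rw [commutatorElement_eq_one_iff_mul_comm.mpr (be_comm _ _ _ _)]
        exact Subgroup.one_mem _
  -- copies of the commutator subgroup at all vertices of level `|v| + 1`
  have h7 : ∀ d ∈ ⁅(G : Subgroup (WW n)), (G : Subgroup (WW n))⁆, put (v ++ [0]) d ∈ M := by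
    intro d hd
    rw [put_append]
    exact h6 hd
  have h8 : Pow ⁅(G : Subgroup (WW n)), (G : Subgroup (WW n))⁆ (v.length + 1) ≤ M := by
    apply Pow_le_of
    intro u hu d hd
    obtain ⟨m, hm, hmu⟩ := (H_nice hq).transitive (v ++ [0]) u (by simp [hu])
    have hm2 : m.secv (v ++ [0]) ∈ G := G_nice.secv_mem (H_le_G hq hm) _
    have h9 := conj_put m ((m.secv (v ++ [0]))⁻¹ * d * m.secv (v ++ [0])) (v ++ [0])
    have h10 : m.secv (v ++ [0]) * ((m.secv (v ++ [0]))⁻¹ * d * m.secv (v ++ [0])) *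
        (m.secv (v ++ [0]))⁻¹ = d := by group
    rw [hmu, h10] at h9
    rw [← h9]
    refine M.mul_mem (M.mul_mem (hHM hm) (h7 _ ?_)) (M.inv_mem (hHM hm))
    have := conj_mem_commutator (G.inv_mem hm2) hd
    simpa using this
  intro h9
  exact G_nice.index_pow _ (Subgroup.relIndex_eq_zero_of_le_left h8 h9)

/-- the kernel of the character -/
def kerChi : Subgroup (WW n) where
  carrier := {g | chi hq g = 0}
  mul_mem' := by
    intro g h hg hh
    show chi hq (g * h) = 0
    rw [chi_mul, hg, hh, add_zero]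
  one_mem' := chi_one hq
  inv_mem' := by
    intro g hg
    show chi hq g⁻¹ = 0
    rw [chi_inv, hg, neg_zero]

/-- the character as a homomorphism -/
def chiHom : WW n →* Multiplicative (ZMod q) where
  toFun := fun g => Multiplicative.ofAdd (chi hq g)
  map_one' := by rw [chi_one]; rfl
  map_mul' := fun g h => by rw [chi_mul]; rfl

lemma kerChi_eq : kerChi hq = (chiHom hq).ker := by
  ext g
  rfl

/-- the intersection of the kernel of the character with `G` has index `q` in `G` -/
lemma kerChi_index : (G ⊓ kerChi hq).relIndex G = q := by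
  rw [Subgroup.inf_relIndex_left, kerChi_eq]
  have h1 : (chiHom hq).ker.relIndex (G (n := n)) = Nat.card ((chiHom hq).comp G.subtype).range := by
    rw [← Subgroup.index_ker]
    rfl
  rw [h1]
  have h2 : ((chiHom hq).comp (G (n := n)).subtype).range = ⊤ := by
    rw [eq_top_iff]
    rintro y -
    have : NeZero q := ⟨(Fact.out : q.Prime).ne_zero⟩
    refine ⟨⟨be (((Multiplicative.toAdd y).val : ℕ) : ZMod n) 0, be_mem_G _ _⟩, ?_⟩
    show Multiplicative.ofAdd (chi hq (be _ 0)) = y
    rw [chi_be, add_zero, map_natCast, ZMod.natCast_zmod_val]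
    rfl
  rw [h2]
  rw [Subgroup.card_top]
  exact Nat.card_zmod q

/-- a subgroup between `H` and `G` lies in the kernel of the character or has finite index -/
theorem dichotomy {M : Subgroup (WW n)} (hHM : H hq ≤ M) (hMG : M ≤ G) :
    M ≤ G ⊓ kerChi hq ∨ M.relIndex G ≠ 0 := by
  by_cases h : ∃ m ∈ M, chi hq m ≠ 0
  · obtain ⟨m, hm, hchi⟩ := h
    obtain ⟨L, s, rfl⟩ := exists_form (hMG hm)
    obtain ⟨v, hv⟩ := claimA hq L.length M hHM hMG L s rfl hm hchi
    exact Or.inr (claimB hq hHM hv)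
  · push Not at h
    exact Or.inl fun m hm => ⟨hMG hm, h m hm⟩

lemma H_le_ker : H hq ≤ G ⊓ kerChi hq := fun _ hh => ⟨H_le_G hq hh, chi_H hq hh⟩

end Pool.Agent.KS6_60.BG.FG
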