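import Mathlib

/-! Portraits of automorphisms of the rooted tree of words over an additive commutative group `X`
all of whose labels are translations. -/

set_option linter.unusedSectionVars false

namespace Pool.Agent.KS6_60.BG.Port

variable (X : Type) [AddCommGroup X]

/-- Portraits: a label in `X` for each vertex. -/
@[ext] structure W where
  /-- the label -/
  l : List X → X

variable {X}

namespace W

/-- section at a letter -/
def sec (g : W X) (x : X) : W X := ⟨fun w => g.l (x :: w)⟩

/-- action on words -/
def act : W X → List X → List X
  | _, [] => []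
  | g, x :: w => (x + g.l []) :: act (g.sec x) w

/-- inverse action on words -/
def actInv : W X → List X → List X
  | _, [] => []
  | g, y :: w => (y - g.l []) :: actInv (g.sec (y - g.l [])) w

lemma act_actInv (g : W X) (w : List X) : g.act (g.actInv w) = w := by
  induction w generalizing g with
  | nil => rfl
  | cons x w ih =>
    simp only [act, actInv, ih, sub_add_cancel]

lemma actInv_act (g : W X) (w : List X) : g.actInv (g.act w) = w := by
  induction w generalizing g with
  | nil => rfl
  | cons x w ih =>
    simp only [act, actInv, add_sub_cancel_right, ih]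

instance : Mul (W X) := ⟨fun g h => ⟨fun w => g.l (h.act w) + h.l w⟩⟩

instance : One (W X) := ⟨⟨fun _ => 0⟩⟩

instance : Inv (W X) := ⟨fun g => ⟨fun w => - g.l (g.actInv w)⟩⟩

lemma mul_l (g h : W X) (w : List X) : (g * h).l w = g.l (h.act w) + h.l w := rfl

lemma one_l (w : List X) : (1 : W X).l w = 0 := rfl

lemma inv_l (g : W X) (w : List X) : (g⁻¹).l w = - g.l (g.actInv w) := rfl

lemma mul_root (g h : W X) : (g * h).l [] = g.l [] + h.l [] := rfl

lemma sec_mul (g h : W X) (x : X) : (g * h).sec x = g.sec (x + h.l []) * h.sec x := rfl

lemma sec_one (x : X) : (1 : W X).sec x = 1 := rfl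

lemma act_mul (g h : W X) (w : List X) : (g * h).act w = g.act (h.act w) := by
  induction w generalizing g h with
  | nil => rfl
  | cons x w ih =>
    simp only [act, mul_root, sec_mul, ih]
    rw [add_assoc, add_comm (h.l []) (g.l [])]

lemma act_one (w : List X) : (1 : W X).act w = w := by
  induction w with
  | nil => rfl
  | cons x w ih => simp only [act, one_l, sec_one, ih, add_zero]

lemma act_length (g : W X) (w : List X) : (g.act w).length = w.length := by
  induction w generalizing g with
  | nil => rfl
  | cons x w ih => simp [act, ih]

instance : Group (W X) where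
  mul_assoc g h k := by
    ext w
    simp only [mul_l, act_mul, add_assoc]
  one_mul g := by
    ext w
    simp only [mul_l, one_l, zero_add]
  mul_one g := by
    ext w
    simp only [mul_l, one_l, act_one, add_zero]
  inv_mul_cancel g := by
    ext w
    simp only [mul_l, inv_l, actInv_act, neg_add_cancel, one_l]

lemma inv_root (g : W X) : (g⁻¹).l [] = - g.l [] := rfl

lemma act_inv_act (g : W X) (w : List X) : (g⁻¹).act (g.act w) = w := by
  rw [← act_mul, inv_mul_cancel, act_one]

lemma act_act_inv (g : W X) (w : List X) : g.act (g⁻¹.act w) = w := by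
  rw [← act_mul, mul_inv_cancel, act_one]

lemma ext' {g h : W X} (h0 : g.l [] = h.l []) (h1 : ∀ x, g.sec x = h.sec x) : g = h := by
  ext w
  cases w with
  | nil => exact h0
  | cons x w => exact congrFun (congrArg W.l (h1 x)) w

lemma act_injective : Function.Injective (act : W X → List X → List X) := by
  intro g h hgh
  ext w
  induction w generalizing g h with
  | nil =>
    have := congrFun hgh [0]
    simpa [act] using this
  | cons x w ih =>
    have h1 : g.sec x = h.sec x → g.l (x :: w) = h.l (x :: w) := fun h1 =>
      congrFun (congrArg W.l h1) w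
    have h2 : (g.sec x).act = (h.sec x).act := by
      funext v
      have := congrFun hgh (x :: v)
      simp only [act, List.cons.injEq] at this
      exact this.2
    exact ih h2

/-- the permutation of the vertices -/
def toPerm : W X →* Equiv.Perm (List X) where
  toFun g :=
    { toFun := g.act
      invFun := g⁻¹.act
      left_inv := act_inv_act g
      right_inv := act_act_inv g }
  map_one' := Equiv.ext act_one
  map_mul' g h := Equiv.ext (act_mul g h)

lemma toPerm_apply (g : W X) (w : List X) : toPerm g w = g.act w := rfl

lemma toPerm_injective : Function.Injective (toPerm : W X →* Equiv.Perm (List X)) := by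
  intro g h hgh
  apply act_injective
  funext w
  exact congrArg (fun e : Equiv.Perm (List X) => e w) hgh

lemma act_append (g : W X) (v w : List X) : ∃ u, g.act (v ++ w) = g.act v ++ u := by
  induction v generalizing g with
  | nil => exact ⟨_, rfl⟩
  | cons x v ih =>
    obtain ⟨u, hu⟩ := ih (g.sec x)
    exact ⟨u, by simp [act, hu]⟩

lemma act_prefix (g : W X) {v w : List X} (h : v <+: w) : g.act v <+: g.act w := by
  obtain ⟨t, rfl⟩ := h
  obtain ⟨u, hu⟩ := g.act_append v t
  rw [hu]
  exact List.prefix_append _ _

/-- iterated section -/
def secv : W X → List X → W X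
  | g, [] => g
  | g, x :: v => secv (g.sec x) v

lemma secv_nil (g : W X) : g.secv [] = g := rfl

lemma secv_cons (g : W X) (x : X) (v : List X) : g.secv (x :: v) = (g.sec x).secv v := rfl

lemma secv_mul (g h : W X) (v : List X) : (g * h).secv v = g.secv (h.act v) * h.secv v := by
  induction v generalizing g h with
  | nil => rfl
  | cons x v ih => simp only [secv, act, sec_mul, ih]

lemma secv_one (v : List X) : (1 : W X).secv v = 1 := by
  induction v with
  | nil => rfl
  | cons x v ih => rw [secv_cons, sec_one, ih]

/-- the element with trivial root label and given sections -/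
def node : (X → W X) →* W X where
  toFun f := ⟨fun w => match w with
    | [] => 0
    | x :: w => (f x).l w⟩
  map_one' := by
    apply ext'
    · rfl
    · intro x; rfl
  map_mul' f g := by
    apply ext'
    · rw [mul_root]; simp
    · intro x
      rw [sec_mul]
      show f x * g x = f (x + 0) * g x
      rw [add_zero]

lemma node_root (f : X → W X) : (node f).l [] = 0 := rfl

lemma node_sec (f : X → W X) (x : X) : (node f).sec x = f x := rfl

lemma node_sec_eq {g : W X} (h : g.l [] = 0) : node g.sec = g := by
  apply ext'
  · rw [node_root, h]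
  · intro x; rfl

variable [DecidableEq X]

/-- the element `g` placed at the letter `x` -/
def at1 (x : X) : W X →* W X := node.comp (MonoidHom.mulSingle (fun _ : X => W X) x)

lemma at1_apply (x : X) (g : W X) : at1 x g = node (Pi.mulSingle x g) := rfl

lemma at1_root (x : X) (g : W X) : (at1 x g).l [] = 0 := rfl

lemma at1_sec_self (x : X) (g : W X) : (at1 x g).sec x = g := by
  rw [at1_apply, node_sec, Pi.mulSingle_eq_same]

lemma at1_sec_ne {x y : X} (h : y ≠ x) (g : W X) : (at1 x g).sec y = 1 := by
  rw [at1_apply, node_sec, Pi.mulSingle_eq_of_ne h]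

lemma eq_at1 {g h : W X} {x : X} (h0 : g.l [] = 0) (h1 : g.sec x = h)
    (h2 : ∀ y, y ≠ x → g.sec y = 1) : g = at1 x h := by
  apply ext'
  · rw [h0, at1_root]
  · intro y
    by_cases hy : y = x
    · subst hy
      rw [h1, at1_sec_self]
    · rw [h2 y hy, at1_sec_ne hy]

lemma conj_at1 (m g : W X) (x : X) :
    m * at1 x g * m⁻¹ = at1 (x + m.l []) (m.sec x * g * (m.sec x)⁻¹) := by
  rw [mul_inv_eq_iff_eq_mul]
  apply ext'
  · rw [mul_root, mul_root, at1_root, at1_root, add_zero, zero_add]
  · intro y
    rw [sec_mul, sec_mul, at1_root, add_zero]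
    by_cases hy : y = x
    · subst hy
      rw [at1_sec_self, at1_sec_self]
      group
    · rw [at1_sec_ne hy, at1_sec_ne (fun h => hy (add_right_cancel h))]
      simp

/-- the element `g` placed at the vertex `v` -/
def put : List X → W X →* W X
  | [] => MonoidHom.id _
  | x :: v => (at1 x).comp (put v)

lemma put_nil (g : W X) : put [] g = g := rfl

lemma put_cons (x : X) (v : List X) (g : W X) : put (x :: v) g = at1 x (put v g) := rfl

lemma put_append (u v : List X) (g : W X) : put (u ++ v) g = put u (put v g) := by
  induction u with
  | nil => rfl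
  | cons x u ih => rw [List.cons_append, put_cons, put_cons, ih]

lemma conj_put (m g : W X) (v : List X) :
    m * put v g * m⁻¹ = put (m.act v) (m.secv v * g * (m.secv v)⁻¹) := by
  induction v generalizing m with
  | nil => rfl
  | cons x v ih =>
    rw [put_cons, conj_at1, ih]
    rfl

lemma put_act_self (v : List X) (g : W X) : (put v g).act v = v := by
  induction v with
  | nil => rfl
  | cons x v ih => rw [put_cons, act, at1_root, at1_sec_self, ih, add_zero]

lemma put_secv_self (v : List X) (g : W X) : (put v g).secv v = g := by
  induction v with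
  | nil => rfl
  | cons x v ih => rw [put_cons, secv_cons, at1_sec_self, ih]

/-- `put v g` fixes all words which do not have the prefix `v` -/
lemma put_act_of_not {v w : List X} (g : W X) (h : ¬ v <+: w) : (put v g).act w = w := by
  induction v generalizing w with
  | nil => exact absurd List.nil_prefix h
  | cons x v ih =>
    cases w with
    | nil => rfl
    | cons y w =>
      rw [put_cons, act, at1_root, add_zero]
      by_cases hy : y = x
      · subst hy
        rw [at1_sec_self, ih]
        intro h1
        apply h
        rw [List.cons_prefix_cons]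
        exact ⟨rfl, h1⟩
      · rw [at1_sec_ne hy, act_one]

/-- the section of `put v g` at a vertex not comparable with `v` -/
lemma put_secv_of_not {v w : List X} (g : W X) (h : ¬ v <+: w) (h' : ¬ w <+: v) :
    (put v g).secv w = 1 := by
  induction v generalizing w with
  | nil => exact absurd List.nil_prefix h
  | cons x v ih =>
    cases w with
    | nil => exact absurd List.nil_prefix h'
    | cons y w =>
      rw [put_cons, secv_cons]
      by_cases hy : y = x
      · subst hy
        rw [at1_sec_self, ih]
        · intro h1
          exact h (by rw [List.cons_prefix_cons]; exact ⟨rfl, h1⟩)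
        · intro h1
          exact h' (by rw [List.cons_prefix_cons]; exact ⟨rfl, h1⟩)
      · rw [at1_sec_ne hy, secv_one]

/-- sum of the labels of level `n` -/
def lev [Fintype X] : ℕ → W X → X
  | 0, g => g.l []
  | n + 1, g => ∑ x, lev n (g.sec x)

lemma lev_zero [Fintype X] (g : W X) : lev 0 g = g.l [] := rfl

lemma lev_succ [Fintype X] (n : ℕ) (g : W X) : lev (n + 1) g = ∑ x, lev n (g.sec x) := rfl

lemma lev_mul [Fintype X] (n : ℕ) (g h : W X) : lev n (g * h) = lev n g + lev n h := by
  induction n generalizing g h with
  | zero => rfl
  | succ n ih =>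
    rw [lev_succ, lev_succ, lev_succ]
    simp only [sec_mul, ih]
    rw [Finset.sum_add_distrib]
    congr 1
    exact Equiv.sum_comp (Equiv.addRight (h.l [])) (fun x => lev n (g.sec x))

lemma lev_one [Fintype X] (n : ℕ) : lev n (1 : W X) = 0 := by
  have := lev_mul n (1 : W X) 1
  rw [mul_one] at this
  exact left_eq_add.mp this

lemma lev_inv [Fintype X] (n : ℕ) (g : W X) : lev n g⁻¹ = - lev n g := by
  have := lev_mul n g⁻¹ g
  rw [inv_mul_cancel, lev_one] at this
  exact eq_neg_of_add_eq_zero_left this.symm

/-- the stabilizer of the first level -/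
def St1 : Subgroup (W X) where
  carrier := {g | g.l [] = 0}
  mul_mem' := by
    intro g h hg hh
    show (g * h).l [] = 0
    rw [mul_root, hg, hh, add_zero]
  one_mem' := rfl
  inv_mem' := by
    intro g hg
    show (g⁻¹).l [] = 0
    rw [inv_root, hg, neg_zero]

lemma mem_St1 {g : W X} : g ∈ (St1 : Subgroup (W X)) ↔ g.l [] = 0 := Iff.rfl

lemma sec_inv_of {g : W X} (hg : g.l [] = 0) (x : X) : (g⁻¹).sec x = (g.sec x)⁻¹ := by
  rw [eq_inv_iff_mul_eq_one]
  have := sec_mul g⁻¹ g x
  rw [hg, add_zero, inv_mul_cancel, sec_one] at this
  exact this.symm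

lemma sec_mul_of {g h : W X} (hh : h.l [] = 0) (x : X) : (g * h).sec x = g.sec x * h.sec x := by
  rw [sec_mul, hh, add_zero]

lemma sec_inv (g : W X) (x : X) : (g⁻¹).sec x = (g.sec (x - g.l []))⁻¹ := by
  rw [eq_inv_iff_mul_eq_one]
  have := sec_mul g⁻¹ g (x - g.l [])
  rw [sub_add_cancel, inv_mul_cancel, sec_one] at this
  exact this.symm

end W

end Pool.Agent.KS6_60.BG.Port
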